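import Pool.Agent.Lib.MP_49df17_al.Final

/-!
The stability property of the rational cohomology of the IA-automorphism groups holds in every
degree.
-/

theorem Pool.Agent.Results.MP_49df17_al.Stability.result :
    ∀ i : ℕ, Pool.Agent.Lib.MP_49df17_al.SF i :=
  Pool.Agent.Lib.MP_49df17_al.all_SF
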